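import Mathlib

set_option autoImplicit false

namespace Pool.Agent.Results.MP_56f0a1_co.FourCycleQuiver

/-- Laurent polynomials with integer coefficients in `x_0, …, x_(n-1), y_0, …, y_(n-1)`. An
exponent vector has the exponents of the `x_i` at `Sum.inl i` and those of the `y_i` at
`Sum.inr i`. -/
abbrev Laurent (n : ℕ) : Type := AddMonoidAlgebra ℤ (Fin n ⊕ Fin n → ℤ)

/-- The variables `x_i` (at `Sum.inl i`) and `y_i` (at `Sum.inr i`). -/
noncomputable def var {n : ℕ} (i : Fin n ⊕ Fin n) : Laurent n :=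
  AddMonoidAlgebra.single (Pi.single i 1) 1

/-- Skew-symmetrizable integer matrices. -/
def SkewSymmetrizable {n : ℕ} (B : Matrix (Fin n) (Fin n) ℤ) : Prop :=
  ∃ d : Fin n → ℤ, (∀ i, 0 < d i) ∧ ∀ i j, d i * B i j = -(d j * B j i)

/-- Mutation of an extended exchange matrix in direction `k`. -/
def mutate {n : ℕ} (M : Matrix (Fin n ⊕ Fin n) (Fin n) ℤ) (k : Fin n) :
    Matrix (Fin n ⊕ Fin n) (Fin n) ℤ := fun i j =>
  if i = Sum.inl k ∨ j = k then -M i j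
  else M i j + max (M i k) 0 * max (M (Sum.inl k) j) 0 - max (-M i k) 0 * max (-M (Sum.inl k) j) 0

/-- `IsSeed B x M`: the seed with extended cluster `x` and extended exchange matrix `M` arises by
finitely many mutations from the seed with principal coefficients, whose extended cluster consists
of the variables and whose matrix is `B` on top of the identity. In a mutation in direction `k` the
new cluster variable `z` is given by the exchange relation. -/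
inductive IsSeed {n : ℕ} (B : Matrix (Fin n) (Fin n) ℤ) :
    (Fin n ⊕ Fin n → Laurent n) → Matrix (Fin n ⊕ Fin n) (Fin n) ℤ → Prop
  | initial : IsSeed B var (Matrix.fromRows B 1)
  | mutation (x : Fin n ⊕ Fin n → Laurent n) (M : Matrix (Fin n ⊕ Fin n) (Fin n) ℤ) (k : Fin n)
      (z : Laurent n) : IsSeed B x M →
      x (Sum.inl k) * z = ∏ i, x i ^ (M i k).toNat + ∏ i, x i ^ (-M i k).toNat →
      IsSeed B (Function.update x (Sum.inl k) z) (mutate M k)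

/-- The cluster variables of the cluster algebra with principal coefficients at `B`, by the Laurent
phenomenon Laurent polynomials in the variables of the initial seed. -/
def IsClusterVariable {n : ℕ} (B : Matrix (Fin n) (Fin n) ℤ) (f : Laurent n) : Prop :=
  ∃ x M k, IsSeed B x M ∧ f = x (Sum.inl k)

/-- The Newton polytope of a Laurent polynomial. -/
def newton {n : ℕ} (f : Laurent n) : Set (Fin n ⊕ Fin n → ℝ) :=
  convexHull ℝ ((fun b i => (b i : ℝ)) '' {b : Fin n ⊕ Fin n → ℤ | f.coeff b ≠ 0})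

/-- Every lattice point of the Newton polytope of `f` is an exponent of `f`. -/
def IsSaturated {n : ℕ} (f : Laurent n) : Prop :=
  ∀ a : Fin n ⊕ Fin n → ℤ, (fun i => (a i : ℝ)) ∈ newton f → f.coeff a ≠ 0

/-- The term `r x^a y^b`. -/
noncomputable def mono (a b : Fin 4 → ℤ) (r : ℤ) : Laurent 4 :=
  AddMonoidAlgebra.single (Sum.elim a b) r

/-- The exchange matrix of the counterexample: the oriented four-cycle with double arrows. -/
def exchangeB : Matrix (Fin 4) (Fin 4) ℤ :=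
  !![0, -2, 0, 2; 2, 0, -2, 0; 0, 2, 0, -2; -2, 0, 2, 0]

/-- The cluster variable `x_i`. -/
noncomputable abbrev X (i : Fin 4) : Laurent 4 := var (Sum.inl i)

/-- The frozen variable `y_i`. -/
noncomputable abbrev Y (i : Fin 4) : Laurent 4 := var (Sum.inr i)

/-- The first factor `y_0 x_1^2 + x_3^2`. -/
noncomputable def A : Laurent 4 := Y 0 * X 1 ^ 2 + X 3 ^ 2

/-- The second factor `y_2 x_3^2 + x_1^2`. -/
noncomputable def C : Laurent 4 := Y 2 * X 3 ^ 2 + X 1 ^ 2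

/-- The cluster variable of the counterexample. -/
noncomputable def clusterF : Laurent 4 := mono ![-3, -2, -4, -2] ![0, 0, 0, 0] 1 *
  (X 0 ^ 4 * C ^ 4 * Y 0 ^ 3 * Y 3 ^ 2 +
    2 * X 0 ^ 2 * X 2 ^ 2 * C ^ 2 * A * Y 0 ^ 2 * Y 3 *
      (Y 0 * Y 1 * Y 2 ^ 2 * Y 3 * X 3 ^ 2 + X 1 ^ 2) +
    X 2 ^ 4 * A ^ 3 * (Y 0 ^ 3 * Y 1 ^ 2 * Y 2 ^ 4 * Y 3 ^ 2 * X 3 ^ 2 + X 1 ^ 2))

/-- The field of fractions of the ring of Laurent polynomials. -/
abbrev K : Type := FractionRing (Laurent 4)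

/-- The images of the variables in the field of fractions. -/
noncomputable def gx (i : Fin 4 ⊕ Fin 4) : K := algebraMap (Laurent 4) K (var i)

lemma inj {p q : Laurent 4} (h : algebraMap (Laurent 4) K p = algebraMap (Laurent 4) K q) :
    p = q := IsFractionRing.injective (Laurent 4) K h

/-- The monomials as a homomorphism. -/
noncomputable def U : Multiplicative (Fin 4 ⊕ Fin 4 → ℤ) →* K :=
  (algebraMap (Laurent 4) K : Laurent 4 →* K).comp (AddMonoidAlgebra.of ℤ (Fin 4 ⊕ Fin 4 → ℤ))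

lemma U_apply (e : Fin 4 ⊕ Fin 4 → ℤ) :
    U (Multiplicative.ofAdd e) = algebraMap (Laurent 4) K (AddMonoidAlgebra.single e 1) := rfl

lemma gx_ne (i : Fin 4 ⊕ Fin 4) : gx i ≠ 0 := by
  intro h
  have h1 : gx i * U (Multiplicative.ofAdd (-Pi.single i 1)) = 1 := by
    unfold gx var
    rw [← U_apply, ← map_mul, ← ofAdd_add, add_neg_cancel]
    exact map_one U
  rw [h, zero_mul] at h1
  exact zero_ne_one h1

lemma U_prod (e : Fin 4 ⊕ Fin 4 → ℤ) : U (Multiplicative.ofAdd e) = ∏ i, gx i ^ e i := by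
  classical
  have he : Multiplicative.ofAdd e = ∏ i, (Multiplicative.ofAdd
      (Pi.single i 1 : Fin 4 ⊕ Fin 4 → ℤ)) ^ e i := by
    apply Multiplicative.toAdd.injective
    rw [toAdd_prod]
    simp only [toAdd_zpow, toAdd_ofAdd]
    funext j
    rw [Finset.sum_apply, Finset.sum_eq_single j]
    · simp
    · intro i _ hi
      simp [Ne.symm hi]
    · intro h
      exact absurd (Finset.mem_univ _) h
  rw [he, map_prod]
  apply Finset.prod_congr rfl
  intro i _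
  rw [map_zpow]
  rfl

lemma map_mono (a b : Fin 4 → ℤ) (r : ℤ) : algebraMap (Laurent 4) K (mono a b r) =
    r * ((gx (Sum.inl 0) ^ a 0 * gx (Sum.inl 1) ^ a 1 * gx (Sum.inl 2) ^ a 2 *
        gx (Sum.inl 3) ^ a 3) *
      (gx (Sum.inr 0) ^ b 0 * gx (Sum.inr 1) ^ b 1 * gx (Sum.inr 2) ^ b 2 *
        gx (Sum.inr 3) ^ b 3)) := by
  have h1 : mono a b r = (r : Laurent 4) * AddMonoidAlgebra.single (Sum.elim a b) 1 := by
    unfold mono
    rw [← zsmul_eq_mul, AddMonoidAlgebra.smul_single]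
    simp
  rw [h1, map_mul, map_intCast, ← U_apply, U_prod, Fintype.prod_sum_type, Fin.prod_univ_four,
    Fin.prod_univ_four]
  rfl

lemma map_var (i : Fin 4 ⊕ Fin 4) : algebraMap (Laurent 4) K (var i) = gx i := rfl

/-- A matrix of size eight times four from its rows. -/
def mk8 (a b c d e f g h : Fin 4 → ℤ) : Matrix (Fin 4 ⊕ Fin 4) (Fin 4) ℤ :=
  Sum.elim ![a, b, c, d] ![e, f, g, h]

def M0 := mk8 ![0, -2, 0, 2] ![2, 0, -2, 0] ![0, 2, 0, -2] ![-2, 0, 2, 0]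
  ![1, 0, 0, 0] ![0, 1, 0, 0] ![0, 0, 1, 0] ![0, 0, 0, 1]
def M1 := mk8 ![0, 2, 0, -2] ![-2, 0, -2, 4] ![0, 2, 0, -2] ![2, -4, 2, 0]
  ![-1, 0, 0, 2] ![0, 1, 0, 0] ![0, 0, 1, 0] ![0, 0, 0, 1]
def M2 := mk8 ![0, 2, 0, -2] ![-2, 0, 2, 0] ![0, -2, 0, 2] ![2, 0, -2, 0]
  ![-1, 0, 0, 2] ![0, 1, 0, 0] ![0, 2, -1, 0] ![0, 0, 0, 1]
def M3 := mk8 ![0, -2, 4, -2] ![2, 0, -2, 0] ![-4, 2, 0, 2] ![2, 0, -2, 0]
  ![-1, 0, 0, 2] ![0, -1, 2, 0] ![0, -2, 3, 0] ![0, 0, 0, 1]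
def M4 := mk8 ![0, -2, 0, 2] ![2, 0, -2, 0] ![0, 2, 0, -2] ![-2, 0, 2, 0]
  ![3, 0, 0, -2] ![0, -1, 2, 0] ![0, -2, 3, 0] ![2, 0, 0, -1]

lemma hM0 : Matrix.fromRows exchangeB (1 : Matrix (Fin 4) (Fin 4) ℤ) = M0 := by
  ext i j
  rcases i with i | i <;> fin_cases i <;> fin_cases j <;> rfl
lemma hM1 : mutate M0 0 = M1 := by
  ext i j
  rcases i with i | i <;> fin_cases i <;> fin_cases j <;> rfl
lemma hM2 : mutate M1 2 = M2 := by
  ext i j
  rcases i with i | i <;> fin_cases i <;> fin_cases j <;> rfl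
lemma hM3 : mutate M2 1 = M3 := by
  ext i j
  rcases i with i | i <;> fin_cases i <;> fin_cases j <;> rfl
lemma hM4 : mutate M3 3 = M4 := by
  ext i j
  rcases i with i | i <;> fin_cases i <;> fin_cases j <;> rfl

/-- The extended cluster with the given cluster. -/
noncomputable def mx (a b c d : Laurent 4) : Fin 4 ⊕ Fin 4 → Laurent 4 :=
  Sum.elim ![a, b, c, d] ![Y 0, Y 1, Y 2, Y 3]

lemma update0 (a b c d z : Laurent 4) :
    Function.update (mx a b c d) (Sum.inl 0) z = mx z b c d := by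
  funext i
  rcases i with i | i <;> fin_cases i <;> simp [mx, Function.update]

lemma update1 (a b c d z : Laurent 4) :
    Function.update (mx a b c d) (Sum.inl 1) z = mx a z c d := by
  funext i
  rcases i with i | i <;> fin_cases i <;> simp [mx, Function.update]

lemma update2 (a b c d z : Laurent 4) :
    Function.update (mx a b c d) (Sum.inl 2) z = mx a b z d := by
  funext i
  rcases i with i | i <;> fin_cases i <;> simp [mx, Function.update]

lemma update3 (a b c d z : Laurent 4) :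
    Function.update (mx a b c d) (Sum.inl 3) z = mx a b c z := by
  funext i
  rcases i with i | i <;> fin_cases i <;> simp [mx, Function.update]

lemma var_eq : (var : Fin 4 ⊕ Fin 4 → Laurent 4) = mx (X 0) (X 1) (X 2) (X 3) := by
  funext i
  rcases i with i | i <;> fin_cases i <;> rfl

lemma map_prod_mx (a b c d : Laurent 4) (e : Fin 4 ⊕ Fin 4 → ℕ) :
    algebraMap (Laurent 4) K (∏ i, mx a b c d i ^ e i) =
      (algebraMap (Laurent 4) K a ^ e (Sum.inl 0) * algebraMap (Laurent 4) K b ^ e (Sum.inl 1) *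
        algebraMap (Laurent 4) K c ^ e (Sum.inl 2) * algebraMap (Laurent 4) K d ^ e (Sum.inl 3)) *
      (gx (Sum.inr 0) ^ e (Sum.inr 0) * gx (Sum.inr 1) ^ e (Sum.inr 1) *
        gx (Sum.inr 2) ^ e (Sum.inr 2) * gx (Sum.inr 3) ^ e (Sum.inr 3)) := by
  rw [Fintype.prod_sum_type, Fin.prod_univ_four, Fin.prod_univ_four]
  simp only [map_mul, map_pow]
  rfl

/-- The new variable after the mutation at 0. -/
noncomputable def z0 : Laurent 4 := mono ![-1, 0, 0, 0] ![0, 0, 0, 0] 1 * A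
/-- The new variable after the mutation at 2. -/
noncomputable def z2 : Laurent 4 := mono ![0, 0, -1, 0] ![0, 0, 0, 0] 1 * C
/-- The new variable after the mutation at 1. -/
noncomputable def z1 : Laurent 4 := mono ![-2, -1, -2, 0] ![0, 0, 0, 0] 1 *
  (Y 1 * Y 2 ^ 2 * X 2 ^ 2 * A ^ 2 + X 0 ^ 2 * C ^ 2)
/-- The new variable after the mutation at 3. -/
noncomputable def z3 : Laurent 4 := mono ![-2, 0, -2, -1] ![0, 0, 0, 0] 1 *
  (Y 3 * Y 0 ^ 2 * X 0 ^ 2 * C ^ 2 + X 2 ^ 2 * A ^ 2)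

section images

variable {a b c d p q r s : K} (ha : gx (Sum.inl 0) = a) (hb : gx (Sum.inl 1) = b)
    (hc : gx (Sum.inl 2) = c) (hd : gx (Sum.inl 3) = d) (hp : gx (Sum.inr 0) = p)
    (hq : gx (Sum.inr 1) = q) (hr : gx (Sum.inr 2) = r) (hs : gx (Sum.inr 3) = s)

include ha hb hc hd hp hq hr hs

lemma map_z0 : algebraMap (Laurent 4) K z0 = (p * b ^ 2 + d ^ 2) / a := by
  have h0 : a ≠ 0 := ha ▸ gx_ne _
  unfold z0 A
  simp only [map_add, map_mul, map_pow, map_mono, map_var, ha, hb, hc, hd, hp, hq, hr, hs]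
  simp
  field_simp

lemma map_z2 : algebraMap (Laurent 4) K z2 = (r * d ^ 2 + b ^ 2) / c := by
  have h0 : c ≠ 0 := hc ▸ gx_ne _
  unfold z2 C
  simp only [map_add, map_mul, map_pow, map_mono, map_var, ha, hb, hc, hd, hp, hq, hr, hs]
  simp
  field_simp

lemma map_z1 : algebraMap (Laurent 4) K z1 =
    (q * r ^ 2 * c ^ 2 * (p * b ^ 2 + d ^ 2) ^ 2 + a ^ 2 * (r * d ^ 2 + b ^ 2) ^ 2) /
      (a ^ 2 * b * c ^ 2) := by
  have h0 : a ≠ 0 := ha ▸ gx_ne _
  have h1 : b ≠ 0 := hb ▸ gx_ne _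
  have h2 : c ≠ 0 := hc ▸ gx_ne _
  unfold z1 A C
  simp only [map_add, map_mul, map_pow, map_mono, map_var, ha, hb, hc, hd, hp, hq, hr, hs]
  simp
  field_simp

lemma map_z3 : algebraMap (Laurent 4) K z3 =
    (s * p ^ 2 * a ^ 2 * (r * d ^ 2 + b ^ 2) ^ 2 + c ^ 2 * (p * b ^ 2 + d ^ 2) ^ 2) /
      (a ^ 2 * c ^ 2 * d) := by
  have h0 : a ≠ 0 := ha ▸ gx_ne _
  have h2 : c ≠ 0 := hc ▸ gx_ne _
  have h3 : d ≠ 0 := hd ▸ gx_ne _
  unfold z3 A C
  simp only [map_add, map_mul, map_pow, map_mono, map_var, ha, hb, hc, hd, hp, hq, hr, hs]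
  simp
  field_simp

lemma map_clusterF : algebraMap (Laurent 4) K clusterF =
    (a ^ 4 * (r * d ^ 2 + b ^ 2) ^ 4 * p ^ 3 * s ^ 2 +
      2 * a ^ 2 * c ^ 2 * (r * d ^ 2 + b ^ 2) ^ 2 * (p * b ^ 2 + d ^ 2) * p ^ 2 * s *
        (p * q * r ^ 2 * s * d ^ 2 + b ^ 2) +
      c ^ 4 * (p * b ^ 2 + d ^ 2) ^ 3 * (p ^ 3 * q ^ 2 * r ^ 4 * s ^ 2 * d ^ 2 + b ^ 2)) /
      (a ^ 3 * b ^ 2 * c ^ 4 * d ^ 2) := by
  have h0 : a ≠ 0 := ha ▸ gx_ne _
  have h1 : b ≠ 0 := hb ▸ gx_ne _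
  have h2 : c ≠ 0 := hc ▸ gx_ne _
  have h3 : d ≠ 0 := hd ▸ gx_ne _
  unfold clusterF A C
  simp only [map_add, map_mul, map_pow, map_mono, map_var, map_ofNat, ha, hb, hc, hd, hp, hq, hr,
    hs]
  simp
  field_simp

end images

lemma seed0 : IsSeed exchangeB (mx (X 0) (X 1) (X 2) (X 3)) M0 := by
  rw [← var_eq, ← hM0]
  exact IsSeed.initial

lemma seed1 : IsSeed exchangeB (mx z0 (X 1) (X 2) (X 3)) M1 := by
  rw [← hM1, ← update0 (X 0) _ _ _ z0]
  refine IsSeed.mutation _ _ _ _ seed0 (inj ?_)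
  rw [map_mul, map_add, map_prod_mx, map_prod_mx, map_z0 rfl rfl rfl rfl rfl rfl rfl rfl]
  simp [mx, M0, mk8, map_var]
  have h0 := gx_ne (Sum.inl 0)
  field_simp
  try ring

lemma seed2 : IsSeed exchangeB (mx z0 (X 1) z2 (X 3)) M2 := by
  rw [← hM2, ← update2 _ _ (X 2) _ z2]
  refine IsSeed.mutation _ _ _ _ seed1 (inj ?_)
  rw [map_mul, map_add, map_prod_mx, map_prod_mx, map_z2 rfl rfl rfl rfl rfl rfl rfl rfl]
  simp [mx, M1, mk8, map_var]
  have h0 := gx_ne (Sum.inl 2)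
  field_simp
  try ring

lemma seed3 : IsSeed exchangeB (mx z0 z1 z2 (X 3)) M3 := by
  rw [← hM3, ← update1 _ (X 1) _ _ z1]
  refine IsSeed.mutation _ _ _ _ seed2 (inj ?_)
  rw [map_mul, map_add, map_prod_mx, map_prod_mx]
  simp [mx, M2, mk8, map_var, map_z0 rfl rfl rfl rfl rfl rfl rfl rfl,
    map_z1 rfl rfl rfl rfl rfl rfl rfl rfl, map_z2 rfl rfl rfl rfl rfl rfl rfl rfl]
  have h0 := gx_ne (Sum.inl 0)
  have h1 := gx_ne (Sum.inl 1)
  have h2 := gx_ne (Sum.inl 2)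
  field_simp
  try ring

lemma seed4 : IsSeed exchangeB (mx z0 z1 z2 z3) M4 := by
  rw [← hM4, ← update3 _ _ _ (X 3) z3]
  refine IsSeed.mutation _ _ _ _ seed3 (inj ?_)
  rw [map_mul, map_add, map_prod_mx, map_prod_mx]
  simp [mx, M3, mk8, map_var, map_z0 rfl rfl rfl rfl rfl rfl rfl rfl,
    map_z3 rfl rfl rfl rfl rfl rfl rfl rfl, map_z2 rfl rfl rfl rfl rfl rfl rfl rfl]
  have h0 := gx_ne (Sum.inl 0)
  have h1 := gx_ne (Sum.inl 3)
  have h2 := gx_ne (Sum.inl 2)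
  field_simp
  try ring

lemma seed5 : IsSeed exchangeB (mx clusterF z1 z2 z3) (mutate M4 0) := by
  rw [← update0 z0 _ _ _ clusterF]
  refine IsSeed.mutation _ _ _ _ seed4 (inj ?_)
  rw [map_mul, map_add, map_prod_mx, map_prod_mx]
  simp [mx, M4, mk8, map_clusterF rfl rfl rfl rfl rfl rfl rfl rfl,
    map_z0 rfl rfl rfl rfl rfl rfl rfl rfl, map_z1 rfl rfl rfl rfl rfl rfl rfl rfl,
    map_z3 rfl rfl rfl rfl rfl rfl rfl rfl]
  have h0 := gx_ne (Sum.inl 0)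
  have h1 := gx_ne (Sum.inl 1)
  have h2 := gx_ne (Sum.inl 2)
  have h3 := gx_ne (Sum.inl 3)
  field_simp
  try ring

/-- The twenty-five terms of the cluster variable. -/
lemma clusterF_eq : clusterF =
  mono ![-3, -2, 0, 6] ![3, 2, 4, 2] 1 +
  mono ![-3, 0, 0, 4] ![0, 0, 0, 0] 1 +
  mono ![-3, 0, 0, 4] ![4, 2, 4, 2] 3 +
  mono ![-3, 2, 0, 2] ![1, 0, 0, 0] 3 +
  mono ![-3, 2, 0, 2] ![5, 2, 4, 2] 3 +
  mono ![-3, 4, 0, 0] ![2, 0, 0, 0] 3 +
  mono ![-3, 4, 0, 0] ![6, 2, 4, 2] 1 +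
  mono ![-3, 6, 0, -2] ![3, 0, 0, 0] 1 +
  mono ![-1, -2, -2, 6] ![3, 1, 4, 2] 2 +
  mono ![-1, 0, -2, 4] ![2, 0, 2, 1] 2 +
  mono ![-1, 0, -2, 4] ![3, 1, 3, 2] 4 +
  mono ![-1, 0, -2, 4] ![4, 1, 4, 2] 2 +
  mono ![-1, 2, -2, 2] ![2, 0, 1, 1] 4 +
  mono ![-1, 2, -2, 2] ![3, 0, 2, 1] 2 +
  mono ![-1, 2, -2, 2] ![3, 1, 2, 2] 2 +
  mono ![-1, 2, -2, 2] ![4, 1, 3, 2] 4 +
  mono ![-1, 4, -2, 0] ![2, 0, 0, 1] 2 +
  mono ![-1, 4, -2, 0] ![3, 0, 1, 1] 4 +
  mono ![-1, 4, -2, 0] ![4, 1, 2, 2] 2 +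
  mono ![-1, 6, -2, -2] ![3, 0, 0, 1] 2 +
  mono ![1, -2, -4, 6] ![3, 0, 4, 2] 1 +
  mono ![1, 0, -4, 4] ![3, 0, 3, 2] 4 +
  mono ![1, 2, -4, 2] ![3, 0, 2, 2] 6 +
  mono ![1, 4, -4, 0] ![3, 0, 1, 2] 4 +
  mono ![1, 6, -4, -2] ![3, 0, 0, 2] 1 := by
  apply inj
  rw [map_clusterF rfl rfl rfl rfl rfl rfl rfl rfl]
  simp only [map_add, map_mono]
  have h0 := gx_ne (Sum.inl 0)
  have h1 := gx_ne (Sum.inl 1)
  have h2 := gx_ne (Sum.inl 2)
  have h3 := gx_ne (Sum.inl 3)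
  generalize gx (Sum.inl 0) = a at *
  generalize gx (Sum.inl 1) = b at *
  generalize gx (Sum.inl 2) = c at *
  generalize gx (Sum.inl 3) = d at *
  generalize gx (Sum.inr 0) = p at *
  generalize gx (Sum.inr 1) = q at *
  generalize gx (Sum.inr 2) = r at *
  generalize gx (Sum.inr 3) = s at *
  simp
  field_simp
  try ring

lemma elim_eq_iff (a b a' b' : Fin 4 → ℤ) :
    (Sum.elim a b : Fin 4 ⊕ Fin 4 → ℤ) = Sum.elim a' b' ↔ a = a' ∧ b = b' := by
  constructor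
  · intro h
    exact ⟨funext fun i => congrFun h (Sum.inl i), funext fun i => congrFun h (Sum.inr i)⟩
  · rintro ⟨rfl, rfl⟩
    rfl

lemma coeff_mono (a b : Fin 4 → ℤ) (r : ℤ) (e : Fin 4 ⊕ Fin 4 → ℤ) :
    (mono a b r).coeff e = if Sum.elim a b = e then r else 0 := by
  classical
  unfold mono
  change (Finsupp.single (Sum.elim a b) r) e = _
  rw [Finsupp.single_apply]

lemma coeff_low : clusterF.coeff (Sum.elim ![-3, 0, 0, 4] ![0, 0, 0, 0]) = 1 := by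
  rw [clusterF_eq]
  simp [coeff_mono, elim_eq_iff]

lemma coeff_high : clusterF.coeff (Sum.elim ![-3, 0, 0, 4] ![4, 2, 4, 2]) = 3 := by
  rw [clusterF_eq]
  simp [coeff_mono, elim_eq_iff]

lemma coeff_mid : clusterF.coeff (Sum.elim ![-3, 0, 0, 4] ![2, 1, 2, 1]) = 0 := by
  rw [clusterF_eq]
  simp [coeff_mono, elim_eq_iff]

lemma not_saturated : ¬ IsSaturated clusterF := by
  intro H
  apply H (Sum.elim ![-3, 0, 0, 4] ![2, 1, 2, 1]) _ coeff_mid
  have hlow : (fun i => ((Sum.elim ![-3, 0, 0, 4] ![0, 0, 0, 0] i : ℤ) : ℝ)) ∈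
      ((fun (b : Fin 4 ⊕ Fin 4 → ℤ) i => (b i : ℝ)) ''
        {b : Fin 4 ⊕ Fin 4 → ℤ | clusterF.coeff b ≠ 0}) := by
    refine ⟨_, ?_, rfl⟩
    change clusterF.coeff _ ≠ 0
    rw [coeff_low]
    norm_num
  have hhigh : (fun i => ((Sum.elim ![-3, 0, 0, 4] ![4, 2, 4, 2] i : ℤ) : ℝ)) ∈
      ((fun (b : Fin 4 ⊕ Fin 4 → ℤ) i => (b i : ℝ)) ''
        {b : Fin 4 ⊕ Fin 4 → ℤ | clusterF.coeff b ≠ 0}) := by
    refine ⟨_, ?_, rfl⟩
    change clusterF.coeff _ ≠ 0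
    rw [coeff_high]
    norm_num
  have hmid := (convex_convexHull ℝ ((fun (b : Fin 4 ⊕ Fin 4 → ℤ) i => (b i : ℝ)) ''
        {b : Fin 4 ⊕ Fin 4 → ℤ | clusterF.coeff b ≠ 0})) (subset_convexHull ℝ _ hlow)
          (subset_convexHull ℝ _ hhigh) (show (0 : ℝ) ≤ 1 / 2 by norm_num)
          (show (0 : ℝ) ≤ 1 / 2 by norm_num) (by norm_num)
  unfold newton
  have he : (fun i => ((Sum.elim ![-3, 0, 0, 4] ![2, 1, 2, 1] i : ℤ) : ℝ)) =
      (1 / 2 : ℝ) • (fun i => ((Sum.elim ![-3, 0, 0, 4] ![0, 0, 0, 0] i : ℤ) : ℝ)) +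
      (1 / 2 : ℝ) • (fun i : Fin 4 ⊕ Fin 4 =>
        ((Sum.elim ![-3, 0, 0, 4] ![4, 2, 4, 2] i : ℤ) : ℝ)) := by
    funext i
    rcases i with i | i <;> fin_cases i <;> simp <;> norm_num
  rw [he]
  exact hmid

lemma exchangeB_skew : exchangeB.transpose = -exchangeB := by
  ext i j
  fin_cases i <;> fin_cases j <;> rfl

/-- Saturation fails for a cluster variable of a cluster algebra with principal coefficients, even
for a skew-symmetric exchange matrix (a quiver): the oriented four-cycle with double arrows. The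
point `(-3, 0, 0, 4; 2, 1, 2, 1)` is the midpoint of two exponents of the cluster variable
`clusterF` and not an exponent of it. -/
theorem result : exchangeB.transpose = -exchangeB ∧ SkewSymmetrizable exchangeB ∧
    IsClusterVariable exchangeB clusterF ∧
    clusterF.coeff (Sum.elim ![-3, 0, 0, 4] ![0, 0, 0, 0]) = 1 ∧
    clusterF.coeff (Sum.elim ![-3, 0, 0, 4] ![4, 2, 4, 2]) = 3 ∧
    clusterF.coeff (Sum.elim ![-3, 0, 0, 4] ![2, 1, 2, 1]) = 0 ∧ ¬ IsSaturated clusterF :=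
  ⟨exchangeB_skew, ⟨![1, 1, 1, 1], by decide, by decide⟩, ⟨_, _, 0, seed5, rfl⟩, coeff_low,
    coeff_high, coeff_mid, not_saturated⟩

end Pool.Agent.Results.MP_56f0a1_co.FourCycleQuiver
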